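import Pool.Agent.H857Z.BrModel

set_option autoImplicit false

namespace Pool.Agent.Results.MP_77a645_al.ANotAdditive

/-- There are rings `R`, `S` and a brachymorphism `f : R → S` that is not additive. -/
theorem result : ∃ (R S : Type) (_ : Ring R) (_ : Ring S) (f : R → S),
    (∀ x, f (1 + x) = 1 + f x) ∧ (∀ x y, f (x * y) = f x * f y) ∧
    ∃ a b, f (a + b) ≠ f a + f b := by
  obtain ⟨f, h1, h2, hx, hy, hz⟩ := Pool.Agent.H857Z.Br.exists_free ℚ
  refine ⟨FreeAlgebra ℚ (Fin 2), ℚ, inferInstance, inferInstance, f, h1, h2,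
    FreeAlgebra.ι ℚ 0, FreeAlgebra.ι ℚ 1, ?_⟩
  rw [hx, hy, hz]
  norm_num

end Pool.Agent.Results.MP_77a645_al.ANotAdditive
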